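import Pool.Agent.H45.TP

open Finset Matrix Real Filter Topology Pool.Agent.H45.TP

namespace Pool.Agent.Results.MP_c12a31_an.Approx

/-- totally nonnegative kernel -/
def TN {X Y : Set ℝ} (K : X × Y → ℝ) : Prop := ∀ (n : ℕ) (x : Fin n → X) (y : Fin n → Y),
  StrictMono x → StrictMono y → 0 ≤ (Matrix.of fun i j => K (x i, y j)).det

/-- totally positive kernel -/
def TP {X Y : Set ℝ} (K : X × Y → ℝ) : Prop := ∀ (n : ℕ) (x : Fin n → X) (y : Fin n → Y),
  StrictMono x → StrictMono y → 0 < (Matrix.of fun i j => K (x i, y j)).det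

lemma smooth {κ ε R : ℝ} (hκ : 0 < κ) (hε : 0 < ε) (K : ℝ → ℝ → ℝ) (S T : Finset ℝ) (hS : ∀ s ∈ S, s ≤ R)
    (hT : ∀ s ∈ T, s ≤ R) (h : ∀ (n : ℕ) (x y : Fin n → ℝ), StrictMono x → StrictMono y → (∀ i, x i ∈ (S : Set ℝ)) →
      (∀ i, y i ∈ (T : Set ℝ)) → 0 ≤ mn K x y) :
    ∃ E : ℝ → ℝ → ℝ, (∀ s t, |E s t| ≤ 2 * ε) ∧ ∀ (n : ℕ) (x y : Fin n → ℝ), StrictMono x → StrictMono y →
      0 < mn (fun a b => ∑ t ∈ T, (∑ s ∈ S, exp (-(κ * (a - s) ^ 2)) * K s t) * exp (-(κ * (t - b) ^ 2)) + E a b)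
        x y := by
  let g : ℝ → ℝ → ℝ := fun s t => exp (-(κ * (s - t) ^ 2))
  let u : ℕ → ℝ := fun k => R + 1 + k
  let c : ℝ → ℝ := fun s => ε * 2 ^ (R + 1 - s)
  let w : ℝ → ℝ → ℕ → ℝ := fun a b k => g a (u k) * c (u k) * g (u k) b
  have g1 : ∀ s t, g s t ≤ 1 := fun s t => exp_le_one_iff.2 (neg_nonpos.2 (by positivity))
  have w0 : ∀ a b k, 0 ≤ w a b k := fun a b k => by positivity
  have w1 : ∀ a b k, w a b k ≤ ε * (1 / 2) ^ k := fun a b k => by
    have : c (u k) = ε * (1 / 2) ^ k := by simp [c, u, rpow_neg]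
    calc w a b k ≤ 1 * c (u k) * 1 := by unfold w; gcongr <;> apply g1
      _ = _ := by rw [this]; ring
  have ws : ∀ a b, Summable (w a b) := fun a b =>
    .of_nonneg_of_le (w0 a b) (w1 a b) (summable_geometric_two.mul_left ε)
  have uR : ∀ k, ¬ u k ≤ R := fun k => by have := k.cast_nonneg (α := ℝ); simp only [u]; linarith
  have ui : Function.Injective u := fun a b e => by simpa [u] using e
  refine ⟨fun a b => ∑' k, w a b k, fun a b => ?_, fun n x y hx hy => ?_⟩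
  · rw [abs_of_nonneg (tsum_nonneg (w0 a b))]
    refine ((ws a b).tsum_le_tsum (w1 a b) (summable_geometric_two.mul_left ε)).trans_eq ?_
    rw [tsum_mul_left, tsum_geometric_two, mul_comm]
  let B : ℝ → ℝ → ℝ := fun s t => if s ≤ R ∧ t ≤ R then K s t else if s = t then c s else 0
  let f : Fin n → ℝ := fun i => u i
  have fm : StrictMono f := fun i j hij => by simpa [f, u] using hij
  have dj : ∀ S : Finset ℝ, (∀ s ∈ S, s ≤ R) → ∀ L, Disjoint S ((range L).image u) := fun S hS L =>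
    disjoint_left.2 fun s a b => let ⟨k, _, e⟩ := mem_image.1 b; uR k (e ▸ hS s a)
  have p1 : ∀ L a, ∀ t ∈ T, ∑ s ∈ S ∪ (range L).image u, g a s * B s t = ∑ s ∈ S, g a s * K s t := fun L a t ht => by
    rw [sum_union (dj S hS L), sum_image fun _ _ _ _ e => ui e, sum_eq_zero (s := range L) fun k _ => by
      simp only [B]; rw [if_neg fun h => uR k h.1, if_neg fun e : u k = t => uR k (e ▸ hT t ht), mul_zero], add_zero]
    exact sum_congr rfl fun s hs => by simp only [B]; rw [if_pos ⟨hS s hs, hT t ht⟩]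
  have p2 : ∀ L a, ∀ k < L, ∑ s ∈ S ∪ (range L).image u, g a s * B s (u k) = g a (u k) * c (u k) := fun L a k hk => by
    rw [sum_eq_single_of_mem (u k) (mem_union_right _ (mem_image_of_mem _ (mem_range.2 hk))) fun s _ e => by
      simp only [B]; rw [if_neg fun h => uR k h.2, if_neg e, mul_zero]]
    simp only [B]; rw [if_neg fun h => uR k h.1, if_pos trivial]
  have key : ∀ L, n ≤ L → mn (fun a t => 1 * g a t * c t) x f * mn g f y ≤ n.factorial *
      mn (fun a b => ∑ t ∈ T, (∑ s ∈ S, g a s * K s t) * g t b + ∑ k ∈ range L, w a b k) x y := fun L hL => by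
    have mem : ∀ (S : Finset ℝ) s, s ∈ S ∪ (range L).image u → s ≤ R → s ∈ (S : Set ℝ) := fun S s a b =>
      (mem_union.1 a).resolve_right fun a => let ⟨k, _, e⟩ := mem_image.1 a; uR k (e ▸ b)
    have := (cb_le (T ∪ (range L).image u) (fun a t => ∑ s ∈ S ∪ (range L).image u, g a s * B s t) g x y
      fun z hz zT => mul_nonneg (cb_le _ g B x z fun v hv vS => mul_nonneg (gauss_tp hκ x v hx hv).le
        (tail K R c (fun s => by positivity) S T h n v z hv hz (fun i => mem S _ (vS i)) fun i => mem T _ (zT i))).1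
        (gauss_tp hκ z y hz hy).le).2 f fun i => mem_union_right _ (mem_image_of_mem _ (mem_range.2 (by omega)))
    convert this using 2
    · simp only [mn, f, one_mul, p2 L _ _ ((Fin.is_lt _).trans_le hL)]
    · congr 1; ext a b
      rw [sum_union (dj T hT L), sum_image fun _ _ _ _ e => ui e]
      congr 1
      · exact sum_congr rfl fun t ht => by rw [p1 L a t ht]
      · exact sum_congr rfl fun k hk => by rw [p2 L a k (mem_range.1 hk)]
  have lim : Tendsto (fun L => n.factorial * mn (fun a b => ∑ t ∈ T, (∑ s ∈ S, g a s * K s t) * g t b +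
      ∑ k ∈ range L, w a b k) x y) atTop (𝓝 (n.factorial * mn (fun a b => ∑ t ∈ T, (∑ s ∈ S, g a s * K s t) * g t b +
      ∑' k, w a b k) x y)) :=
    (((continuous_id.matrix_det).tendsto _).comp (tendsto_pi_nhds.2 fun i => tendsto_pi_nhds.2 fun j =>
      (ws _ _).hasSum.tendsto_sum_nat.const_add _)).const_mul _
  refine (mul_pos_iff_of_pos_left (Nat.cast_pos.2 n.factorial_pos)).1
    (lt_of_lt_of_le ?_ (ge_of_tendsto lim (eventually_atTop.2 ⟨n, key⟩)))
  rw [scale g (fun _ => 1) c]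
  exact mul_pos (mul_pos (by positivity) (gauss_tp hκ x f hx fm)) (gauss_tp hκ f y fm hy)

lemma step {X Y : Set ℝ} (K : X × Y → ℝ) (hK : TN K) {d r : ℝ} (d0 : 0 < d) (hX : (X ∩ Set.Icc (-r) r).Nonempty)
    (hY : (Y ∩ Set.Icc (-r) r).Nonempty) : ∃ K' : X × Y → ℝ, TP K' ∧ ∀ p : X × Y, |p.1.1| ≤ r → |p.2.1| ≤ r →
      ∀ η, (∀ q, dist q p < 2 * d → |K q - K p| ≤ η) → |K' p - K p| ≤ η + d * (3 + |K p|) := by
  classical
  have net : ∀ X : Set ℝ, (X ∩ Set.Icc (-r) r).Nonempty → ∃ S : Finset ℝ, S.Nonempty ∧ (∀ s ∈ S, s ∈ X ∧ s ≤ r) ∧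
      ∀ x ∈ X, |x| ≤ r → ∃ s ∈ S, |x - s| < d := fun X ⟨x, hx⟩ => by
    obtain ⟨t, h1, h2, h3⟩ := Metric.finite_approx_of_totallyBounded
      ((totallyBounded_Icc (-r) r).subset (Set.inter_subset_right (s := X))) d d0
    have : ∀ x ∈ X, |x| ≤ r → ∃ s ∈ h2.toFinset, |x - s| < d := fun x a b => by
      simpa [dist_eq] using h3 ⟨a, abs_le.1 b⟩
    exact ⟨h2.toFinset, let ⟨s, h, _⟩ := this x hx.1 (abs_le.2 hx.2); ⟨s, h⟩,
      fun s hs => let a := h1 (h2.mem_toFinset.1 hs); ⟨a.1, a.2.2⟩, this⟩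
  obtain ⟨S, S0, S1, S2⟩ := net X hX
  obtain ⟨T, T0, T1, T2⟩ := net Y hY
  let K0 : ℝ → ℝ → ℝ := fun s t => if h : s ∈ X ∧ t ∈ Y then K (⟨s, h.1⟩, ⟨t, h.2⟩) else 0
  let A := ∑ t ∈ T, ∑ s ∈ S, (|K0 s t| + 1)
  have A0 : 0 < A := sum_pos (fun t _ => sum_pos (fun s _ => by positivity) S0) T0
  set κ := A / d ^ 3
  have hκ : 0 < κ := by positivity
  set v := exp (-(2 * κ * d ^ 2))
  have v0 : 0 < v := exp_pos _
  have vA : v * A ≤ d := by
    have := add_one_le_exp (2 * κ * d ^ 2)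
    rw [show v = _ from exp_neg _, inv_mul_le_iff₀ (exp_pos _), show A = κ * d ^ 2 * d by simp only [κ]; field_simp]
    gcongr; nlinarith [mul_pos hκ (pow_pos d0 2)]
  obtain ⟨E, E1, E2⟩ := smooth hκ (mul_pos d0 v0) K0 S T (fun s h => (S1 s h).2) (fun s h => (T1 s h).2)
    fun n x y hx hy a b => by
      convert hK n (fun i => ⟨x i, (S1 _ (a i)).1⟩) (fun i => ⟨y i, (T1 _ (b i)).1⟩) hx hy using 1
      simp only [mn, K0, (S1 _ (a _)).1, (T1 _ (b _)).1, and_self, dite_true]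
  let Z : Finset ℝ → ℝ → ℝ := fun S a => ∑ s ∈ S, exp (-(κ * (a - s) ^ 2))
  have Z0 : ∀ S : Finset ℝ, S.Nonempty → ∀ a, 0 < Z S a := fun S h a => sum_pos (fun s _ => exp_pos _) h
  have Z1 : ∀ (S : Finset ℝ) a, (∃ s ∈ S, |a - s| < d) → exp (-(κ * d ^ 2)) ≤ Z S a := fun S a ⟨s, h, h'⟩ => by
    refine le_trans ?_ (single_le_sum (f := fun s => exp (-(κ * (a - s) ^ 2))) (fun _ _ => (exp_pos _).le) h)
    rw [← sq_abs (a - s)]; gcongr
  refine ⟨fun p => (Z S p.1)⁻¹ * (∑ t ∈ T, (∑ s ∈ S, exp (-(κ * (p.1 - s) ^ 2)) * K0 s t) *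
    exp (-(κ * (t - p.2) ^ 2)) + E p.1 p.2) * (Z T p.2)⁻¹, fun n x y hx hy => ?_, fun ⟨a, b⟩ h1 h2 η H => ?_⟩
  · refine lt_of_lt_of_eq ?_ (scale (fun a b => ∑ t ∈ T, (∑ s ∈ S, exp (-(κ * (a - s) ^ 2)) * K0 s t) *
      exp (-(κ * (t - b) ^ 2)) + E a b) (fun a => (Z S a)⁻¹) (fun b => (Z T b)⁻¹) (fun i => (x i : ℝ))
      fun i => (y i : ℝ)).symm
    exact mul_pos (mul_pos (prod_pos fun _ _ => inv_pos.2 (Z0 S S0 _)) (prod_pos fun _ _ => inv_pos.2 (Z0 T T0 _)))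
      (E2 n _ _ hx hy)
  have z1 := Z0 S S0 a
  have z2 := Z0 T T0 b
  have zz : v ≤ Z S a * Z T b := le_of_eq_of_le (by rw [← exp_add]; exact congrArg exp (by ring))
    (mul_le_mul (Z1 S a (S2 _ a.2 h1)) (Z1 T b (T2 _ b.2 h2)) (exp_pos _).le z1.le)
  have η0 : 0 ≤ η := by simpa using H (a, b) (by simpa)
  set k := K (a, b)
  have e : ∀ N : ℝ, (Z S a)⁻¹ * N * (Z T b)⁻¹ - k = (N - Z S a * Z T b * k) / (Z S a * Z T b) := fun N => by
    field_simp
  simp only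
  rw [e, abs_div, abs_of_pos (mul_pos z1 z2), div_le_iff₀ (mul_pos z1 z2)]
  have e2 : Z S a * Z T b = ∑ t ∈ T, ∑ s ∈ S, exp (-(κ * ((a - s) ^ 2 + (t - b) ^ 2))) := by
    rw [sum_mul_sum, sum_comm]
    exact sum_congr rfl fun t _ => sum_congr rfl fun s _ => by rw [← exp_add]; ring_nf
  have e3 : ∑ t ∈ T, (∑ s ∈ S, exp (-(κ * (a - s) ^ 2)) * K0 s t) * exp (-(κ * (t - b) ^ 2)) - Z S a * Z T b * k =
      ∑ t ∈ T, ∑ s ∈ S, exp (-(κ * ((a - s) ^ 2 + (t - b) ^ 2))) * (K0 s t - k) := by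
    simp only [e2, sum_mul, ← sum_sub_distrib]
    exact sum_congr rfl fun t _ => sum_congr rfl fun s _ => by rw [mul_add, neg_add, exp_add]; ring
  have e4 : |∑ t ∈ T, ∑ s ∈ S, exp (-(κ * ((a - s) ^ 2 + (t - b) ^ 2))) * (K0 s t - k)| ≤
      η * (Z S a * Z T b) + v * v * (1 + |k|) * A := by
    simp only [e2, A, mul_sum, ← sum_add_distrib]
    refine (abs_sum_le_sum_abs _ _).trans (sum_le_sum fun t ht => (abs_sum_le_sum_abs _ _).trans
      (sum_le_sum fun s hs => ?_))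
    rw [abs_mul, abs_of_pos (exp_pos _)]
    by_cases c : dist ((⟨s, (S1 s hs).1⟩, ⟨t, (T1 t ht).1⟩) : X × Y) (a, b) < 2 * d
    · have := H _ c
      simp only [K0, (S1 s hs).1, (T1 t ht).1, and_self, dite_true]
      exact le_add_of_le_of_nonneg (by rw [mul_comm]; gcongr) (by positivity)
    · refine le_add_of_nonneg_of_le (by positivity) ?_
      rw [mul_assoc (v * v)]
      refine mul_le_mul ?_ ((abs_sub _ _).trans (by nlinarith [abs_nonneg k, abs_nonneg (K0 s t)]))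
        (abs_nonneg _) (by positivity)
      rw [← exp_add, exp_le_exp, ← neg_add, neg_le_neg_iff]
      simp only [Prod.dist_eq, Subtype.dist_eq, dist_eq, not_lt, le_max_iff] at c
      have : (2 * d) ^ 2 ≤ (a - s) ^ 2 + (t - b) ^ 2 := by
        rcases c with c | c <;> have := pow_le_pow_left₀ (by positivity) c 2 <;> rw [sq_abs] at this <;>
          nlinarith [sq_nonneg (a - s : ℝ), sq_nonneg (t - b : ℝ)]
      nlinarith
  rw [add_sub_right_comm, e3]
  refine (abs_add_le _ _).trans ((add_le_add e4 (E1 _ _)).trans ?_)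
  have : v * v * (1 + |k|) * A ≤ v * (d * (1 + |k|)) := by
    rw [show v * v * (1 + |k|) * A = v * (v * A * (1 + |k|)) by ring]; gcongr
  have : v * (d * (3 + |k|)) ≤ Z S a * Z T b * (d * (3 + |k|)) := by gcongr
  nlinarith

theorem result (X Y : Set ℝ) (hX : X.Infinite) (hY : Y.Infinite) (K : X × Y → ℝ) (hK : TN K) :
    ∃ L : ℕ → X × Y → ℝ, (∀ m, TP (L m)) ∧ ∀ p, ContinuousAt K p → Tendsto (fun m => L m p) atTop (𝓝 (K p)) := by
  obtain ⟨x, hx⟩ := hX.nonempty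
  obtain ⟨y, hy⟩ := hY.nonempty
  choose L h1 h2 using fun m : ℕ => step K hK (r := m + |x| + |y|) (Nat.one_div_pos_of_nat (n := m))
    ⟨x, hx, abs_le.1 (by linarith [abs_nonneg y, m.cast_nonneg (α := ℝ)])⟩
    ⟨y, hy, abs_le.1 (by linarith [abs_nonneg x, m.cast_nonneg (α := ℝ)])⟩
  refine ⟨L, h1, fun p hp => Metric.tendsto_nhds.2 fun ε ε0 => ?_⟩
  obtain ⟨δ, δ0, H⟩ := Metric.continuousAt_iff.1 hp (ε / 2) (half_pos ε0)
  have t := tendsto_one_div_add_atTop_nhds_zero_nat (𝕜 := ℝ)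
  have n := tendsto_natCast_atTop_atTop (R := ℝ)
  filter_upwards [(t.const_mul 2).eventually_lt_const (by simpa using δ0), (t.mul_const (3 + |K p|)).eventually_lt_const
    (u := ε / 2) (by simpa using ε0), n.eventually_ge_atTop |p.1.1|, n.eventually_ge_atTop |p.2.1|] with m a b c e
  have := h2 m p (by linarith [abs_nonneg x, abs_nonneg y]) (by linarith [abs_nonneg x, abs_nonneg y]) (ε / 2)
    fun q hq => (H (hq.trans a)).le
  rw [dist_eq]; linarith

end Pool.Agent.Results.MP_c12a31_an.Approx
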